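import Pool.Agent.Helper29.OWN.HWx

set_option autoImplicit false

namespace Pool.Agent.Results.MP_66a32a_al.CompleteIdealExample

open TensorProduct

/-- A one-dimensional Gorenstein local domain: a Noetherian local domain of Krull dimension one
in which some nonzero element of the maximal ideal generates an irreducible ideal. -/
def GorensteinDomainOne (R : Type) [CommRing R] [IsLocalRing R] : Prop :=
  IsDomain R ∧ IsNoetherianRing R ∧ ringKrullDim R = 1 ∧
    ∃ x ∈ IsLocalRing.maximalIdeal R, x ≠ 0 ∧ InfIrred (Ideal.span {x})

/-- The tensor product of an ideal with its dual is torsionfree. -/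
def TensorTorsionfree {R : Type} [CommRing R] (I : Ideal R) : Prop :=
  Submodule.torsion R (I ⊗[R] Module.Dual R I) = ⊥

/-- The tensor product of an ideal with its dual is reflexive. -/
def TensorReflexive {R : Type} [CommRing R] (I : Ideal R) : Prop :=
  Module.IsReflexive R (I ⊗[R] Module.Dual R I)

/-- The evaluation map from the tensor product of an ideal with its dual to the ring is an
isomorphism onto the ideal `J`. -/
def EvalIsoOnto {R : Type} [CommRing R] (I J : Ideal R) : Prop :=
  Function.Injective (contractRight R I) ∧ LinearMap.range (contractRight R I) = J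

open Pool.Agent.Helper47.HW Pool.Agent.Helper29.OWN.HWx

/-- For every field `F` there are a complete one-dimensional Gorenstein local domain `R`
containing `F` and an ideal `I` of `R` with exactly three generators, not free, such that the
evaluation map `I ⊗ Hom(I,R) → R` is an isomorphism onto the maximal ideal; in particular
`I ⊗ Hom(I,R)` is torsionfree and reflexive. -/
theorem result (F : Type) [Field F] :
    ∃ (R : Type) (_ : CommRing R) (_ : IsLocalRing R) (_ : Algebra F R),
      GorensteinDomainOne R ∧ IsAdicComplete (IsLocalRing.maximalIdeal R) R ∧
      ∃ I : Ideal R,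
        (∃ a b c : R, I = Ideal.span {a, b, c}) ∧ (∀ a b : R, I ≠ Ideal.span {a, b}) ∧
        ¬ Module.Free R I ∧ EvalIsoOnto I (IsLocalRing.maximalIdeal R) ∧
        TensorTorsionfree I ∧ TensorReflexive I := by
  refine ⟨R F, inferInstance, inferInstance, (algF F).toAlgebra,
    ⟨inferInstance, inferInstance, dim_one, ⟨xx, xx_mem, xx_ne, infIrred_xx⟩⟩, complete,
    II F, II_span, II_not_two, ?_, ⟨?_, ?_⟩, ?_, ?_⟩
  · intro h
    exact M_not_free (Module.Free.of_equiv (eI F).symm)
  · exact contract_injective_of (eI F) contract_injective
  · rw [contract_range_of (eI F), range_eq]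
  · exact torsion_bot (inc ∘ₗ contractRight (R F) (II F))
      (inc_injective.comp (contract_injective_of (eI F) contract_injective))
  · have h1 : LinearMap.range (contractRight (R F) (II F)) =
        IsLocalRing.maximalIdeal (R F) := by
      rw [contract_range_of (eI F), range_eq]
    have e : (II F ⊗[R F] Module.Dual (R F) (II F)) ≃ₗ[R F]
        IsLocalRing.maximalIdeal (R F) :=
      (LinearEquiv.ofInjective _ (contract_injective_of (eI F) contract_injective)).trans
        (LinearEquiv.ofEq _ _ h1)
    have := max_reflexive (F := F)
    exact Module.equiv e.symm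

end Pool.Agent.Results.MP_66a32a_al.CompleteIdealExample
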